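import Pool.Agent.H90.SPW.Targets

/-!
# Row BWB: the sum of the prior weights of a letter along a path
-/

set_option autoImplicit false

open Finset
open scoped BigOperators Classical
open Pool.Agent.H90.SPW

namespace Pool.Agent.H21.SPW

variable {X E Y : Type} [Fintype X] [Fintype E]

/-- the exponential moment -/
noncomputable def G (c : Ch X E Y) (k' : ℝ) (y : Y) : ℕ → X → X → ℝ
  | 0, x, z => c.P 0 x z
  | t + 1, x, z => Real.exp (c.inW z y / k') *
      ∑ e, if c.tgt e = z then G c k' y t x (c.src e) * c.wt e else 0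

/-- the potential -/
noncomputable def g (c : Ch X E Y) (y : Y) (t : ℕ) (z : X) : ℝ :=
  ∑ r ∈ range t, ∑ w, c.P r w z * c.inW w y

theorem inW_nonneg (c : Ch X E Y) (z : X) (y : Y) : 0 ≤ c.inW z y := by
  unfold Ch.inW
  refine Finset.sum_nonneg fun e _ => ?_
  split
  · exact c.use_nonneg y e
  · exact le_rfl

theorem G_nonneg (c : Ch X E Y) (k' : ℝ) (y : Y) : ∀ (t : ℕ) (x z : X), 0 ≤ G c k' y t x z
  | 0, x, z => c.P_nonneg 0 x z
  | t + 1, x, z => by
    refine mul_nonneg (Real.exp_pos _).le (Finset.sum_nonneg fun e _ => ?_)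
    split
    · exact mul_nonneg (G_nonneg c k' y t x _) (c.wt_nonneg e)
    · exact le_rfl

theorem BW_succ (c : Ch X E Y) (t : ℕ) (x z : X) (y : Y) :
    c.BW (t + 1) x z y = (∑ e, if c.tgt e = z then c.BW t x (c.src e) y * c.wt e else 0) +
      c.inW z y * c.P (t + 1) x z := by
  unfold Ch.BW
  rw [Finset.sum_range_succ]
  congr 1
  · have h1 : ∀ e : E, (if c.tgt e = z then (∑ j ∈ range t, ∑ w, c.P (j + 1) x w * c.inW w y *
        c.P (t - 1 - j) w (c.src e)) * c.wt e else 0) =
        ∑ j ∈ range t, ∑ w, c.P (j + 1) x w * c.inW w y *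
          (if c.tgt e = z then c.P (t - 1 - j) w (c.src e) * c.wt e else 0) := by
      intro e
      split
      · rw [Finset.sum_mul]
        refine Finset.sum_congr rfl fun j _ => ?_
        rw [Finset.sum_mul]
        refine Finset.sum_congr rfl fun w _ => ?_
        ring
      · simp
    rw [Finset.sum_congr rfl fun e _ => h1 e]
    symm
    rw [Finset.sum_comm]
    refine Finset.sum_congr rfl fun j hj => ?_
    rw [Finset.sum_comm]
    refine Finset.sum_congr rfl fun w _ => ?_
    have hj' : t + 1 - 1 - j = (t - 1 - j) + 1 := by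
      have := Finset.mem_range.1 hj
      omega
    rw [hj', c.P_succ (t - 1 - j), Finset.mul_sum]
  · have e : t + 1 - 1 - t = 0 := by omega
    rw [e]
    have h1 : ∀ w : X, c.P (t + 1) x w * c.inW w y * c.P 0 w z =
        if w = z then c.inW w y * c.P (t + 1) x w else 0 := by
      intro w
      rw [c.P_zero]
      split
      · ring
      · ring
    rw [Finset.sum_congr rfl fun w _ => h1 w, Finset.sum_ite_eq' Finset.univ z]
    rw [if_pos (Finset.mem_univ _)]

theorem BW_le (c : Ch X E Y) (k' : ℝ) (hk : 0 < k') (y : Y) : ∀ (t : ℕ) (x z : X) (r : ℝ),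
    c.BW t x z y - r * c.P t x z ≤ k' * Real.exp (-r / k') * G c k' y t x z
  | 0, x, z, r => by
    have e : c.BW 0 x z y = 0 := by
      unfold Ch.BW
      simp
    rw [e]
    show 0 - r * c.P 0 x z ≤ k' * Real.exp (-r / k') * c.P 0 x z
    have h1 : -r / k' ≤ Real.exp (-r / k') := by
      have := Real.add_one_le_exp (-r / k')
      linarith
    have h2 : -r ≤ k' * Real.exp (-r / k') := by
      have h3 := mul_le_mul_of_nonneg_left h1 hk.le
      have h4 : k' * (-r / k') = -r := by field_simp
      rw [h4] at h3
      exact h3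
    have := mul_le_mul_of_nonneg_right h2 (c.P_nonneg 0 x z)
    linarith
  | t + 1, x, z, r => by
    have e1 : c.BW (t + 1) x z y - r * c.P (t + 1) x z =
        ∑ e, if c.tgt e = z then (c.BW t x (c.src e) y - (r - c.inW z y) * c.P t x (c.src e)) *
          c.wt e else 0 := by
      rw [BW_succ]
      have e2 : (∑ e, if c.tgt e = z then (c.BW t x (c.src e) y - (r - c.inW z y) *
          c.P t x (c.src e)) * c.wt e else 0) =
          (∑ e, if c.tgt e = z then c.BW t x (c.src e) y * c.wt e else 0) -
            (r - c.inW z y) * ∑ e, if c.tgt e = z then c.P t x (c.src e) * c.wt e else 0 := by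
        rw [Finset.mul_sum, ← Finset.sum_sub_distrib]
        refine Finset.sum_congr rfl fun e _ => ?_
        split
        · ring
        · ring
      rw [e2, ← c.P_succ]
      ring
    rw [e1]
    have e3 : k' * Real.exp (-r / k') * G c k' y (t + 1) x z =
        ∑ e, if c.tgt e = z then (k' * Real.exp (-(r - c.inW z y) / k') *
          G c k' y t x (c.src e)) * c.wt e else 0 := by
      show k' * Real.exp (-r / k') * (Real.exp (c.inW z y / k') *
        ∑ e, if c.tgt e = z then G c k' y t x (c.src e) * c.wt e else 0) = _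
      rw [← mul_assoc, Finset.mul_sum]
      refine Finset.sum_congr rfl fun e _ => ?_
      split
      · have e4 : Real.exp (-(r - c.inW z y) / k') =
            Real.exp (-r / k') * Real.exp (c.inW z y / k') := by
          rw [← Real.exp_add]
          congr 1
          ring
        rw [e4]
        ring
      · ring
    rw [e3]
    refine Finset.sum_le_sum fun e _ => ?_
    split
    · exact mul_le_mul_of_nonneg_right (BW_le c k' hk y t x (c.src e) (r - c.inW z y))
        (c.wt_nonneg e)
    · exact le_rfl

theorem g_succ (c : Ch X E Y) (y : Y) (t : ℕ) (z : X) :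
    g c y (t + 1) z = c.inW z y + ∑ e, if c.tgt e = z then c.wt e * g c y t (c.src e) else 0 := by
  unfold g
  rw [Finset.sum_range_succ', add_comm]
  congr 1
  · have h1 : ∀ w : X, c.P 0 w z * c.inW w y = if w = z then c.inW w y else 0 := by
      intro w
      rw [c.P_zero]
      split
      · ring
      · ring
    rw [Finset.sum_congr rfl fun w _ => h1 w, Finset.sum_ite_eq' Finset.univ z,
      if_pos (Finset.mem_univ _)]
  · have h1 : ∀ e : E, (if c.tgt e = z then c.wt e * ∑ r ∈ range t, ∑ w, c.P r w (c.src e) *
        c.inW w y else 0) = ∑ r ∈ range t, ∑ w,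
          (if c.tgt e = z then c.P r w (c.src e) * c.wt e else 0) * c.inW w y := by
      intro e
      split
      · rw [Finset.mul_sum]
        refine Finset.sum_congr rfl fun j _ => ?_
        rw [Finset.mul_sum]
        refine Finset.sum_congr rfl fun w _ => ?_
        ring
      · simp
    rw [Finset.sum_congr rfl fun e _ => h1 e]
    symm
    rw [Finset.sum_comm]
    refine Finset.sum_congr rfl fun r _ => ?_
    rw [Finset.sum_comm]
    refine Finset.sum_congr rfl fun w _ => ?_
    rw [← Finset.sum_mul, ← c.P_succ]

theorem g_nonneg (c : Ch X E Y) (y : Y) (t : ℕ) (z : X) : 0 ≤ g c y t z :=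
  Finset.sum_nonneg fun r _ => Finset.sum_nonneg fun w _ =>
    mul_nonneg (c.P_nonneg r w z) (inW_nonneg c w y)

theorem g_le (c : Ch X E Y) (y : Y) (n : ℕ) (kap : ℝ) (hu : c.rev.UseLe n kap) (t : ℕ)
    (ht : t ≤ n) (z : X) : g c y t z ≤ kap := by
  have h1 : ∀ r : ℕ, ∑ w, c.P r w z * c.inW w y =
      ∑ e, c.rev.P r z (c.rev.src e) * c.rev.use y e := by
    intro r
    have h2 : ∀ w : X, c.P r w z * c.inW w y =
        ∑ e, if c.tgt e = w then c.P r (c.tgt e) z * c.use y e else 0 := by
      intro w
      unfold Ch.inW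
      rw [Finset.mul_sum]
      refine Finset.sum_congr rfl fun e _ => ?_
      split
      · rename_i h
        rw [h]
      · ring
    rw [Finset.sum_congr rfl fun w _ => h2 w, Finset.sum_comm]
    refine Finset.sum_congr rfl fun e _ => ?_
    rw [Finset.sum_ite_eq Finset.univ (c.tgt e), if_pos (Finset.mem_univ _), c.rev_P]
    rfl
  unfold g
  rw [Finset.sum_congr rfl fun r _ => h1 r]
  refine le_trans ?_ (hu z y)
  refine Finset.sum_le_sum_of_subset_of_nonneg (Finset.range_mono ht) fun r _ _ => ?_
  exact Finset.sum_nonneg fun e _ => mul_nonneg (c.rev.P_nonneg _ _ _) (c.rev.use_nonneg y e)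

theorem H_le (c : Ch X E Y) (y : Y) (n : ℕ) (kap : ℝ) (hk : 0 < kap) (hu : c.rev.UseLe n kap) :
    ∀ t : ℕ, t ≤ n → ∀ z : X, ∑ x, G c (4 * kap) y t x z ≤ 1 + g c y t z / kap
  | 0, _, z => by
    have e1 : ∑ x, G c (4 * kap) y 0 x z = 1 := by
      show ∑ x, c.P 0 x z = 1
      rw [Finset.sum_congr rfl fun x _ => c.P_zero x z, Finset.sum_ite_eq' Finset.univ z,
        if_pos (Finset.mem_univ _)]
    have e2 : g c y 0 z = 0 := by
      unfold g
      simp
    rw [e1, e2]
    simp
  | t + 1, ht, z => by
    have ih := H_le c y n kap hk hu t (by omega)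
    have hg1 := g_le c y n kap hu (t + 1) ht z
    have hs := g_succ c y t z
    have hV := inW_nonneg c z y
    set Vz := c.inW z y with hVz
    set gs := ∑ e, (if c.tgt e = z then c.wt e * g c y t (c.src e) else 0) with hgs
    have hgs0 : 0 ≤ gs := Finset.sum_nonneg fun e _ => by
      split
      · exact mul_nonneg (c.wt_nonneg e) (g_nonneg c y t _)
      · exact le_rfl
    have e1 : ∑ x, G c (4 * kap) y (t + 1) x z = Real.exp (Vz / (4 * kap)) *
        ∑ e, if c.tgt e = z then c.wt e * ∑ x, G c (4 * kap) y t x (c.src e) else 0 := by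
      show ∑ x, Real.exp (Vz / (4 * kap)) * (∑ e, if c.tgt e = z then
        G c (4 * kap) y t x (c.src e) * c.wt e else 0) = _
      rw [← Finset.mul_sum, Finset.sum_comm]
      congr 1
      refine Finset.sum_congr rfl fun e _ => ?_
      split
      · rw [← Finset.sum_mul, mul_comm]
      · simp
    have e2 : (∑ e, if c.tgt e = z then c.wt e * ∑ x, G c (4 * kap) y t x (c.src e) else 0) ≤
        1 + gs / kap := by
      calc (∑ e, if c.tgt e = z then c.wt e * ∑ x, G c (4 * kap) y t x (c.src e) else 0) ≤
          ∑ e, if c.tgt e = z then c.wt e * (1 + g c y t (c.src e) / kap) else 0 := by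
            refine Finset.sum_le_sum fun e _ => ?_
            split
            · exact mul_le_mul_of_nonneg_left (ih _) (c.wt_nonneg e)
            · exact le_rfl
        _ = (∑ e, if c.tgt e = z then c.wt e else 0) + gs / kap := by
            rw [hgs, Finset.sum_div, ← Finset.sum_add_distrib]
            refine Finset.sum_congr rfl fun e _ => ?_
            split
            · ring
            · ring
        _ ≤ 1 + gs / kap := by
            have := c.in_le z
            linarith
    set v := Vz / (4 * kap) with hv
    have hv0 : 0 ≤ v := div_nonneg hV (by linarith)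
    have hVv : Vz = 4 * kap * v := by
      rw [hv]
      field_simp
    have hgk : gs / kap = (g c y (t + 1) z) / kap - 4 * v := by
      rw [hs, hVv]
      field_simp
      ring
    have hle1 : gs / kap ≤ 1 := by
      rw [div_le_one hk]
      linarith
    have hv1 : v ≤ 1 / 4 := by
      have : Vz ≤ kap := by linarith
      rw [hVv] at this
      have h5 : kap * (4 * v) ≤ kap * 1 := by linarith
      have := le_of_mul_le_mul_left h5 hk
      linarith
    have hexp : Real.exp v ≤ 1 + 2 * v := by
      have h6 := Real.exp_bound_div_one_sub_of_interval hv0 (by linarith : v < 1)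
      refine h6.trans ?_
      rw [div_le_iff₀ (by linarith)]
      nlinarith
    rw [e1]
    calc Real.exp v * (∑ e, if c.tgt e = z then c.wt e * ∑ x, G c (4 * kap) y t x (c.src e)
          else 0) ≤ (1 + 2 * v) * (1 + gs / kap) := by
            refine mul_le_mul hexp e2 ?_ (by linarith)
            refine Finset.sum_nonneg fun e _ => ?_
            split
            · exact mul_nonneg (c.wt_nonneg e) (Finset.sum_nonneg fun x _ => G_nonneg c _ y t x _)
            · exact le_rfl
      _ ≤ 1 + g c y (t + 1) z / kap := by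
            have h7 : 2 * v * (gs / kap) ≤ 2 * v * 1 :=
              mul_le_mul_of_nonneg_left hle1 (by linarith)
            nlinarith

theorem pf_BWB : T_BWB := by
  intro X E Y _ _ c n kap hk hu t ht x z y b hb
  have h1 := BW_le c (4 * kap) (by linarith) y t x z b
  have h2 := H_le c y n kap hk hu t ht z
  have h3 : g c y t z / kap ≤ 1 := by
    rw [div_le_one hk]
    exact g_le c y n kap hu t ht z
  have h4 : G c (4 * kap) y t x z ≤ 2 := by
    have h5 : G c (4 * kap) y t x z ≤ ∑ x, G c (4 * kap) y t x z :=
      Finset.single_le_sum (f := fun x => G c (4 * kap) y t x z)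
        (fun x _ => G_nonneg c _ y t x z) (Finset.mem_univ x)
    linarith
  have h5 : 4 * kap * Real.exp (-b / (4 * kap)) * G c (4 * kap) y t x z ≤
      4 * kap * Real.exp (-b / (4 * kap)) * 2 :=
    mul_le_mul_of_nonneg_left h4 (mul_nonneg (by linarith) (Real.exp_pos _).le)
  have h6 : -b / (4 * kap) = -(b / (4 * kap)) := by ring
  rw [h6] at h1 h5
  linarith

end Pool.Agent.H21.SPW
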