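import Pool.Agent.H90.SPW.Targets

/-!
# Row IL: a good block has good children with disjoint frozen sets, up to a quarter
-/

set_option autoImplicit false

open Finset
open scoped BigOperators Classical
open Pool.Agent.H90.SPW

namespace Pool.Agent.H21.SPW

theorem P_pow {X E Y : Type} [Fintype X] [Fintype E] (c : Ch X E Y) (h' i : ℕ) (x a : X) :
    ((c.K ^ h') ^ i) x a = c.P (i * h') x a := by
  unfold Ch.P
  rw [← pow_mul, mul_comm]

theorem DE_nonneg {X E Y : Type} [Fintype X] [Fintype E] [Fintype Y] (c : Ch X E Y) (Lam : ℝ)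
    (h : ℕ) (x x' : X) : 0 ≤ c.DE Lam h x x' := by
  unfold Ch.DE
  refine Finset.sum_nonneg fun y _ => Finset.sum_nonneg fun t₁ _ => Finset.sum_nonneg fun t₂ _ => ?_
  split
  · refine Finset.sum_nonneg fun e₁ _ => Finset.sum_nonneg fun e₂ _ => ?_
    split
    · exact mul_nonneg (mul_nonneg (mul_nonneg (mul_nonneg (c.P_nonneg _ _ _) (c.use_nonneg _ _))
        (c.P_nonneg _ _ _)) (c.use_nonneg _ _)) (c.P_nonneg _ _ _)
    · exact le_rfl
  · exact le_rfl

theorem OccA_nonneg {X E Y : Type} [Fintype X] [Fintype E] (c : Ch X E Y) (Lam : ℝ)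
    (h : ℕ) (x x' : X) (y : Y) : 0 ≤ c.OccA Lam h x x' y := by
  unfold Ch.OccA
  refine Finset.sum_nonneg fun t _ => Finset.sum_nonneg fun e _ => ?_
  split
  · exact mul_nonneg (mul_nonneg (c.P_nonneg _ _ _) (c.use_nonneg _ _)) (c.P_nonneg _ _ _)
  · exact le_rfl

theorem Occ_rev {X E Y : Type} [Fintype X] [Fintype E] (c : Ch X E Y) (h : ℕ) (u v : X) (y : Y) :
    c.Occ h u v y = c.rev.Occ h v u y := by
  unfold Ch.Occ
  rw [← Finset.sum_range_reflect]
  refine Finset.sum_congr rfl fun t ht => Finset.sum_congr rfl fun e _ => ?_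
  have h1 : h - 1 - (h - 1 - t) = t := by
    have := Finset.mem_range.1 ht
    omega
  rw [h1, c.rev_P, c.rev_P]
  show c.P (h - 1 - t) u (c.src e) * c.use y e * c.P t (c.tgt e) v =
    c.P t (c.tgt e) v * c.use y e * c.P (h - 1 - t) u (c.src e)
  ring

theorem mul_div_le {P D : ℝ} (hD : 0 ≤ D) : P * (D / P) ≤ D := by
  by_cases h : P = 0
  · rw [h, zero_mul]
    exact hD
  · exact (mul_div_cancel₀ D h).le

theorem skW_nonneg {X : Type} (M : Matrix X X ℝ) (hM : ∀ a b, 0 ≤ M a b) (k : ℕ)
    (s : Fin (k + 1) → X) : 0 ≤ skW M k s :=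
  Finset.prod_nonneg fun _ _ => hM _ _

/-- frozen letters are used by amplified edges -/
theorem fr_occ {X E Y : Type} [Fintype X] [Fintype E] (hNA : T_NA) (hBWB : T_BWB) (c : Ch X E Y)
    (Lam eta' zeta' kap b : ℝ) (n h' : ℕ) (hh : h' ≤ n) (hL : 0 < Lam) (hk : 0 < kap)
    (hb : 0 ≤ b) (hu : c.rev.UseLe n kap) (he : 0 < eta')
    (hz : Lam * (b + tau0 kap b / eta') ≤ zeta' / 2) (u v : X) (y : Y)
    (hP : eta' ≤ c.P h' u v) (hfr : zeta' * c.P h' u v ≤ c.Occ h' u v y) :
    zeta' / 2 ≤ c.OccA Lam h' u v y / c.P h' u v := by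
  have hP0 : 0 < c.P h' u v := lt_of_lt_of_le he hP
  rw [le_div_iff₀ hP0]
  have h1 := hNA X E Y c Lam hL.le h' u v y
  have h2 := hBWB X E Y c n kap hk hu h' hh u v y b hb
  have ht0 : 0 ≤ tau0 kap b := by
    unfold tau0
    positivity
  have h3 : tau0 kap b ≤ tau0 kap b / eta' * c.P h' u v := by
    rw [div_mul_eq_mul_div, le_div_iff₀ he]
    exact mul_le_mul_of_nonneg_left hP ht0
  have h4 : c.BW h' u v y ≤ (b + tau0 kap b / eta') * c.P h' u v := by
    have : c.BW h' u v y ≤ b * c.P h' u v + tau0 kap b := h2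
    linarith
  have h5 : Lam * c.BW h' u v y ≤ zeta' / 2 * c.P h' u v := by
    calc Lam * c.BW h' u v y ≤ Lam * ((b + tau0 kap b / eta') * c.P h' u v) :=
          mul_le_mul_of_nonneg_left h4 hL.le
      _ = Lam * (b + tau0 kap b / eta') * c.P h' u v := by ring
      _ ≤ zeta' / 2 * c.P h' u v := mul_le_mul_of_nonneg_right hz hP0.le
  linarith

theorem pf_IL (hREC : T_REC) (hNA : T_NA) (hBWB : T_BWB) (hPI : T_PI) (hML : T_ML) : T_IL := by
  intro X E Y _ _ _ c Lam eta cc eta' cc' zeta' kap b k h' hLam hh hk hkap hb hu hur heta heta1 heta'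
    h16 hcc hcc' hzeta' hz hnum x x' hgood
  have hLam0 : 0 < Lam := lt_trans (Real.exp_pos 1) hLam
  have hlog : 0 < Real.log Lam - 1 := by
    have := (Real.lt_log_iff_exp_lt hLam0).2 hLam
    linarith
  have hhk : h' ≤ k * h' := Nat.le_mul_of_pos_left h' hk
  obtain ⟨hg1, hg2⟩ := hgood
  set Z := c.P (k * h') x x' with hZ
  have hZ0 : 0 < Z := lt_of_lt_of_le heta hg1
  set M := c.K ^ h' with hM
  have hMP : ∀ a b, M a b = c.P h' a b := fun a b => rfl
  have hMpow : ∀ (i : ℕ) (a b : X), (M ^ i) a b = c.P (i * h') a b := fun i a b =>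
    P_pow c h' i a b
  have hM0 : ∀ a b, 0 ≤ M a b := fun a b => c.P_nonneg h' a b
  obtain ⟨-, ml2, ml3⟩ := hML X M k x x'
  -- the test functions
  set FA : X → X → ℝ := fun a b => if c.P h' a b < eta' then 1 else 0 with hFA
  set FB : X → X → ℝ := fun a b => 1 / cc' * (c.DE Lam h' a b / c.P h' a b) with hFB
  set FC : Y → X → X → ℝ := fun y a b => 2 / zeta' * (c.OccA Lam h' a b y / c.P h' a b) with hFC
  set GC : Y → X → X → ℝ := fun y u v => 2 / zeta' * (c.rev.OccA Lam h' v u y / c.P h' u v)
    with hGC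
  have hFA0 : ∀ a b, 0 ≤ FA a b := by
    intro a b
    simp only [hFA]
    split <;> norm_num
  have hFB0 : ∀ a b, 0 ≤ FB a b := fun a b =>
    mul_nonneg (by positivity) (div_nonneg (DE_nonneg c _ _ _ _) (c.P_nonneg _ _ _))
  have hFC0 : ∀ y a b, 0 ≤ FC y a b := fun y a b =>
    mul_nonneg (by positivity) (div_nonneg (OccA_nonneg c _ _ _ _ _) (c.P_nonneg _ _ _))
  have hGC0 : ∀ y a b, 0 ≤ GC y a b := fun y a b =>
    mul_nonneg (by positivity) (div_nonneg (OccA_nonneg c.rev _ _ _ _ _) (c.P_nonneg _ _ _))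
  set TA : (Fin (k + 1) → X) → ℝ := fun s => ∑ i : Fin k, FA (s i.castSucc) (s i.succ) with hTA
  set TB : (Fin (k + 1) → X) → ℝ := fun s => ∑ i : Fin k, FB (s i.castSucc) (s i.succ) with hTB
  set TC : (Fin (k + 1) → X) → ℝ := fun s => ∑ i : Fin k, ∑ j : Fin k, if i < j then
    ∑ y, FC y (s i.castSucc) (s i.succ) * GC y (s j.castSucc) (s j.succ) else 0 with hTC
  have hTA0 : ∀ s, 0 ≤ TA s := fun s => Finset.sum_nonneg fun i _ => hFA0 _ _
  have hTB0 : ∀ s, 0 ≤ TB s := fun s => Finset.sum_nonneg fun i _ => hFB0 _ _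
  have hTC0 : ∀ s, 0 ≤ TC s := fun s => Finset.sum_nonneg fun i _ => Finset.sum_nonneg fun j _ => by
    split
    · exact Finset.sum_nonneg fun y _ => mul_nonneg (hFC0 _ _ _) (hGC0 _ _ _)
    · exact le_rfl
  -- the pointwise bound
  have hpt : ∀ s : Fin (k + 1) → X, ¬ c.GoodSk Lam eta' cc' zeta' k h' s →
      1 ≤ TA s + TB s + TC s := by
    intro s hs
    by_cases hA : ∃ i : Fin k, c.P h' (s i.castSucc) (s i.succ) < eta'
    · obtain ⟨i, hi⟩ := hA
      have h1 : FA (s i.castSucc) (s i.succ) = 1 := if_pos hi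
      have h2 : FA (s i.castSucc) (s i.succ) ≤ TA s :=
        Finset.single_le_sum (f := fun i : Fin k => FA (s i.castSucc) (s i.succ))
          (fun i _ => hFA0 _ _) (Finset.mem_univ i)
      have := hTB0 s
      have := hTC0 s
      linarith
    · push Not at hA
      by_cases hB : ∃ i : Fin k, cc' * c.P h' (s i.castSucc) (s i.succ) <
          c.DE Lam h' (s i.castSucc) (s i.succ)
      · obtain ⟨i, hi⟩ := hB
        have hP0 : 0 < c.P h' (s i.castSucc) (s i.succ) := lt_of_lt_of_le heta' (hA i)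
        have h1 : 1 ≤ FB (s i.castSucc) (s i.succ) := by
          simp only [hFB]
          rw [one_div, ← div_eq_inv_mul, div_div, le_div_iff₀ (mul_pos hP0 hcc'), one_mul,
            mul_comm]
          exact hi.le
        have h2 : FB (s i.castSucc) (s i.succ) ≤ TB s :=
          Finset.single_le_sum (f := fun i : Fin k => FB (s i.castSucc) (s i.succ))
            (fun i _ => hFB0 _ _) (Finset.mem_univ i)
        have := hTA0 s
        have := hTC0 s
        linarith
      · push Not at hB
        have hC : ∃ i j : Fin k, i < j ∧ ∃ y, y ∈ c.Fr zeta' h' (s i.castSucc) (s i.succ) ∧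
            y ∈ c.Fr zeta' h' (s j.castSucc) (s j.succ) := by
          by_contra hcon
          apply hs
          refine ⟨fun i => ⟨hA i, hB i⟩, fun i j hij => ?_⟩
          rw [Set.disjoint_left]
          intro y hy1 hy2
          exact hcon ⟨i, j, hij, y, hy1, hy2⟩
        obtain ⟨i, j, hij, y, hy1, hy2⟩ := hC
        have h1 := fr_occ hNA hBWB c Lam eta' zeta' kap b (k * h') h' hhk hLam0 hkap hb hur heta' hz
          _ _ y (hA i) hy1
        have h2 := fr_occ hNA hBWB c.rev Lam eta' zeta' kap b (k * h') h' hhk hLam0 hkap hb hu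
          heta' hz (s j.succ) (s j.castSucc) y (by rw [c.rev_P]; exact hA j) (by
            rw [c.rev_P, ← Occ_rev]
            exact hy2)
        rw [c.rev_P] at h2
        have h3 : 1 ≤ FC y (s i.castSucc) (s i.succ) := by
          have h4 : 2 / zeta' * (zeta' / 2) = 1 := by field_simp
          rw [← h4]
          exact mul_le_mul_of_nonneg_left h1 (by positivity)
        have h5 : 1 ≤ GC y (s j.castSucc) (s j.succ) := by
          have h4 : 2 / zeta' * (zeta' / 2) = 1 := by field_simp
          rw [← h4]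
          exact mul_le_mul_of_nonneg_left h2 (by positivity)
        have h6 : 1 ≤ FC y (s i.castSucc) (s i.succ) * GC y (s j.castSucc) (s j.succ) :=
          one_le_mul_of_one_le_of_one_le h3 h5
        have h7 : FC y (s i.castSucc) (s i.succ) * GC y (s j.castSucc) (s j.succ) ≤
            ∑ y, FC y (s i.castSucc) (s i.succ) * GC y (s j.castSucc) (s j.succ) :=
          Finset.single_le_sum (f := fun y => FC y (s i.castSucc) (s i.succ) *
            GC y (s j.castSucc) (s j.succ)) (fun y _ => mul_nonneg (hFC0 _ _ _) (hGC0 _ _ _))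
            (Finset.mem_univ y)
        have h8 : (if i < j then ∑ y, FC y (s i.castSucc) (s i.succ) *
            GC y (s j.castSucc) (s j.succ) else 0) ≤ ∑ j : Fin k, if i < j then
            ∑ y, FC y (s i.castSucc) (s i.succ) * GC y (s j.castSucc) (s j.succ) else 0 :=
          Finset.single_le_sum (f := fun j : Fin k => if i < j then
            ∑ y, FC y (s i.castSucc) (s i.succ) * GC y (s j.castSucc) (s j.succ) else 0)
            (fun j _ => by
              split
              · exact Finset.sum_nonneg fun y _ => mul_nonneg (hFC0 _ _ _) (hGC0 _ _ _)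
              · exact le_rfl) (Finset.mem_univ j)
        have h9 : (∑ j : Fin k, if i < j then
            ∑ y, FC y (s i.castSucc) (s i.succ) * GC y (s j.castSucc) (s j.succ) else 0) ≤ TC s :=
          Finset.single_le_sum (f := fun i : Fin k => ∑ j : Fin k, if i < j then
            ∑ y, FC y (s i.castSucc) (s i.succ) * GC y (s j.castSucc) (s j.succ) else 0)
            (fun i _ => Finset.sum_nonneg fun j _ => by
              split
              · exact Finset.sum_nonneg fun y _ => mul_nonneg (hFC0 _ _ _) (hGC0 _ _ _)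
              · exact le_rfl) (Finset.mem_univ i)
        rw [if_pos hij] at h8
        have := hTA0 s
        have := hTB0 s
        linarith
  -- the sum is at most the three sums
  have hsum : ∑ s : Fin (k + 1) → X, (if s 0 = x ∧ s (Fin.last k) = x' ∧
      ¬ c.GoodSk Lam eta' cc' zeta' k h' s then skW M k s else 0) ≤
      (∑ i : Fin k, ∑ s : Fin (k + 1) → X, if s 0 = x ∧ s (Fin.last k) = x' then
        skW M k s * FA (s i.castSucc) (s i.succ) else 0) +
      (∑ i : Fin k, ∑ s : Fin (k + 1) → X, if s 0 = x ∧ s (Fin.last k) = x' then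
        skW M k s * FB (s i.castSucc) (s i.succ) else 0) +
      ∑ i : Fin k, ∑ j : Fin k, if i < j then ∑ y, ∑ s : Fin (k + 1) → X,
        (if s 0 = x ∧ s (Fin.last k) = x' then
        skW M k s * (FC y (s i.castSucc) (s i.succ) * GC y (s j.castSucc) (s j.succ)) else 0)
        else 0 := by
    have e1 : ∀ s : Fin (k + 1) → X, (if s 0 = x ∧ s (Fin.last k) = x' ∧
        ¬ c.GoodSk Lam eta' cc' zeta' k h' s then skW M k s else 0) ≤
        (∑ i : Fin k, if s 0 = x ∧ s (Fin.last k) = x' then
          skW M k s * FA (s i.castSucc) (s i.succ) else 0) +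
        (∑ i : Fin k, if s 0 = x ∧ s (Fin.last k) = x' then
          skW M k s * FB (s i.castSucc) (s i.succ) else 0) +
        ∑ i : Fin k, ∑ j : Fin k, if i < j then ∑ y,
          (if s 0 = x ∧ s (Fin.last k) = x' then
          skW M k s * (FC y (s i.castSucc) (s i.succ) * GC y (s j.castSucc) (s j.succ)) else 0)
          else 0 := by
      intro s
      have hw := skW_nonneg M hM0 k s
      by_cases hc : s 0 = x ∧ s (Fin.last k) = x'
      · simp only [if_pos hc]
        have e2 : (∑ i : Fin k, skW M k s * FA (s i.castSucc) (s i.succ)) = skW M k s * TA s := by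
          rw [hTA, Finset.mul_sum]
        have e3 : (∑ i : Fin k, skW M k s * FB (s i.castSucc) (s i.succ)) = skW M k s * TB s := by
          rw [hTB, Finset.mul_sum]
        have e4 : (∑ i : Fin k, ∑ j : Fin k, if i < j then ∑ y,
            skW M k s * (FC y (s i.castSucc) (s i.succ) * GC y (s j.castSucc) (s j.succ)) else 0) =
            skW M k s * TC s := by
          simp only [hTC]
          rw [Finset.mul_sum]
          refine Finset.sum_congr rfl fun i _ => ?_
          rw [Finset.mul_sum]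
          refine Finset.sum_congr rfl fun j _ => ?_
          split
          · rw [Finset.mul_sum]
          · rw [mul_zero]
        rw [e2, e3, e4, ← mul_add, ← mul_add]
        by_cases hg : c.GoodSk Lam eta' cc' zeta' k h' s
        · rw [if_neg fun h => h.2.2 hg]
          have := hTA0 s
          have := hTB0 s
          have := hTC0 s
          exact mul_nonneg hw (by linarith)
        · rw [if_pos ⟨hc.1, hc.2, hg⟩]
          have := mul_le_mul_of_nonneg_left (hpt s hg) hw
          rw [mul_one] at this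
          exact this
      · simp only [if_neg hc]
        rw [if_neg fun h => hc ⟨h.1, h.2.1⟩]
        simp
    refine (Finset.sum_le_sum fun s _ => e1 s).trans (le_of_eq ?_)
    rw [Finset.sum_add_distrib, Finset.sum_add_distrib]
    congr 1
    · congr 1
      · exact Finset.sum_comm
      · exact Finset.sum_comm
    · rw [Finset.sum_comm]
      refine Finset.sum_congr rfl fun i _ => ?_
      rw [Finset.sum_comm]
      refine Finset.sum_congr rfl fun j _ => ?_
      split
      · exact Finset.sum_comm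
      · simp
  -- A
  have hAb : (∑ i : Fin k, ∑ s : Fin (k + 1) → X, if s 0 = x ∧ s (Fin.last k) = x' then
        skW M k s * FA (s i.castSucc) (s i.succ) else 0) ≤ k * eta' := by
    have h1 : ∀ i : Fin k, (∑ s : Fin (k + 1) → X, if s 0 = x ∧ s (Fin.last k) = x' then
        skW M k s * FA (s i.castSucc) (s i.succ) else 0) ≤ eta' := by
      intro i
      rw [ml2 i FA]
      refine le_trans (le_of_eq ?_) (hPI X E Y c ((i : ℕ) * h') h' ((k - 1 - (i : ℕ)) * h') x x' eta'
        heta'.le)
      refine Finset.sum_congr rfl fun a _ => Finset.sum_congr rfl fun b _ => ?_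
      rw [hMpow, hMpow, hMP]
      simp only [hFA]
      split
      · ring
      · ring
    refine (Finset.sum_le_sum fun i _ => h1 i).trans (le_of_eq ?_)
    rw [Finset.sum_const, Finset.card_univ, Fintype.card_fin, nsmul_eq_mul]
  -- B
  set T1 := ∑ i ∈ range k, ∑ a, ∑ b, c.P (i * h') x a * c.DE Lam h' a b *
    c.P ((k - 1 - i) * h') b x' with hT1
  set T2 := ∑ i ∈ range k, ∑ j ∈ range k, (if i < j then ∑ y, ∑ a, ∑ b, ∑ u, ∑ v,
    c.P (i * h') x a * c.OccA Lam h' a b y * c.P ((j - i - 1) * h') b u *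
      c.rev.OccA Lam h' v u y * c.P ((k - 1 - j) * h') v x' else 0) with hT2
  have hT10 : 0 ≤ T1 := Finset.sum_nonneg fun i _ => Finset.sum_nonneg fun a _ =>
    Finset.sum_nonneg fun b _ => mul_nonneg (mul_nonneg (c.P_nonneg _ _ _) (DE_nonneg c _ _ _ _))
      (c.P_nonneg _ _ _)
  have hT20 : 0 ≤ T2 := Finset.sum_nonneg fun i _ => Finset.sum_nonneg fun j _ => by
    split
    · exact Finset.sum_nonneg fun y _ => Finset.sum_nonneg fun a _ => Finset.sum_nonneg fun b _ =>
        Finset.sum_nonneg fun u _ => Finset.sum_nonneg fun v _ =>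
          mul_nonneg (mul_nonneg (mul_nonneg (mul_nonneg (c.P_nonneg _ _ _)
            (OccA_nonneg c _ _ _ _ _)) (c.P_nonneg _ _ _)) (OccA_nonneg c.rev _ _ _ _ _))
            (c.P_nonneg _ _ _)
    · exact le_rfl
  have hTP : c.TP Lam k h' x x' = T1 + T2 := rfl
  have hBb : (∑ i : Fin k, ∑ s : Fin (k + 1) → X, if s 0 = x ∧ s (Fin.last k) = x' then
        skW M k s * FB (s i.castSucc) (s i.succ) else 0) ≤ 1 / cc' * T1 := by
    rw [hT1, Finset.mul_sum, Finset.sum_range]
    refine Finset.sum_le_sum fun i _ => ?_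
    rw [ml2 i FB, Finset.mul_sum]
    refine Finset.sum_le_sum fun a _ => ?_
    rw [Finset.mul_sum]
    refine Finset.sum_le_sum fun b _ => ?_
    rw [hMpow, hMpow, hMP]
    have h1 : c.P h' a b * FB a b ≤ 1 / cc' * c.DE Lam h' a b := by
      simp only [hFB]
      calc c.P h' a b * (1 / cc' * (c.DE Lam h' a b / c.P h' a b)) =
          1 / cc' * (c.P h' a b * (c.DE Lam h' a b / c.P h' a b)) := by ring
        _ ≤ 1 / cc' * c.DE Lam h' a b :=
          mul_le_mul_of_nonneg_left (mul_div_le (DE_nonneg c _ _ _ _)) (by positivity)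
    calc c.P (i * h') x a * (c.P h' a b * FB a b) * c.P ((k - 1 - i) * h') b x' ≤
        c.P (i * h') x a * (1 / cc' * c.DE Lam h' a b) * c.P ((k - 1 - i) * h') b x' :=
          mul_le_mul_of_nonneg_right (mul_le_mul_of_nonneg_left h1 (c.P_nonneg _ _ _))
            (c.P_nonneg _ _ _)
      _ = _ := by ring
  have hCb : (∑ i : Fin k, ∑ j : Fin k, if i < j then ∑ y, ∑ s : Fin (k + 1) → X,
        (if s 0 = x ∧ s (Fin.last k) = x' then
        skW M k s * (FC y (s i.castSucc) (s i.succ) * GC y (s j.castSucc) (s j.succ)) else 0)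
        else 0) ≤ 4 / zeta' ^ 2 * T2 := by
    rw [hT2, Finset.mul_sum, Finset.sum_range]
    refine Finset.sum_le_sum fun i _ => ?_
    rw [Finset.mul_sum, Finset.sum_range]
    refine Finset.sum_le_sum fun j _ => ?_
    by_cases hij : i < j
    · rw [if_pos hij, if_pos (show (i : ℕ) < (j : ℕ) from hij), Finset.mul_sum]
      refine Finset.sum_le_sum fun y _ => ?_
      rw [ml3 i j hij (FC y) (GC y), Finset.mul_sum]
      refine Finset.sum_le_sum fun a _ => ?_
      rw [Finset.mul_sum]
      refine Finset.sum_le_sum fun b _ => ?_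
      rw [Finset.mul_sum]
      refine Finset.sum_le_sum fun u _ => ?_
      rw [Finset.mul_sum]
      refine Finset.sum_le_sum fun v _ => ?_
      rw [hMpow, hMpow, hMpow, hMP, hMP]
      have h1 : c.P h' a b * FC y a b ≤ 2 / zeta' * c.OccA Lam h' a b y := by
        simp only [hFC]
        calc c.P h' a b * (2 / zeta' * (c.OccA Lam h' a b y / c.P h' a b)) =
            2 / zeta' * (c.P h' a b * (c.OccA Lam h' a b y / c.P h' a b)) := by ring
          _ ≤ 2 / zeta' * c.OccA Lam h' a b y :=
            mul_le_mul_of_nonneg_left (mul_div_le (OccA_nonneg c _ _ _ _ _)) (by positivity)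
      have h2 : c.P h' u v * GC y u v ≤ 2 / zeta' * c.rev.OccA Lam h' v u y := by
        simp only [hGC]
        calc c.P h' u v * (2 / zeta' * (c.rev.OccA Lam h' v u y / c.P h' u v)) =
            2 / zeta' * (c.P h' u v * (c.rev.OccA Lam h' v u y / c.P h' u v)) := by ring
          _ ≤ 2 / zeta' * c.rev.OccA Lam h' v u y :=
            mul_le_mul_of_nonneg_left (mul_div_le (OccA_nonneg c.rev _ _ _ _ _)) (by positivity)
      have h3 : 0 ≤ c.P h' u v * GC y u v := mul_nonneg (c.P_nonneg _ _ _) (hGC0 _ _ _)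
      have h4 : 0 ≤ 2 / zeta' * c.OccA Lam h' a b y :=
        mul_nonneg (by positivity) (OccA_nonneg c _ _ _ _ _)
      calc c.P (i * h') x a * (c.P h' a b * FC y a b) * c.P (((j : ℕ) - i - 1) * h') b u *
            (c.P h' u v * GC y u v) * c.P ((k - 1 - (j : ℕ)) * h') v x' =
          (c.P (i * h') x a * c.P (((j : ℕ) - i - 1) * h') b u *
            c.P ((k - 1 - (j : ℕ)) * h') v x') *
            ((c.P h' a b * FC y a b) * (c.P h' u v * GC y u v)) := by ring
        _ ≤ (c.P (i * h') x a * c.P (((j : ℕ) - i - 1) * h') b u *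
            c.P ((k - 1 - (j : ℕ)) * h') v x') *
            ((2 / zeta' * c.OccA Lam h' a b y) * (2 / zeta' * c.rev.OccA Lam h' v u y)) :=
          mul_le_mul_of_nonneg_left (mul_le_mul h1 h2 h3 h4)
            (mul_nonneg (mul_nonneg (c.P_nonneg _ _ _) (c.P_nonneg _ _ _)) (c.P_nonneg _ _ _))
        _ = _ := by
          field_simp
          ring
    · rw [if_neg hij, if_neg (fun h : (i : ℕ) < (j : ℕ) => hij h), mul_zero]
  -- the bound for TP
  have hrec := hREC X E Y c Lam k h' kap b hLam hh hkap hb hu hur x x'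
  rw [← hZ] at hrec
  set N : ℝ := (k * h' : ℝ) * Fintype.card X with hN
  have hN0 : 0 ≤ N := by positivity
  have ht0 : 0 ≤ tau0 kap b := by
    unfold tau0
    positivity
  have hrec' : c.TP Lam k h' x x' ≤ c.DE Lam (k * h') x x' +
      2 * Lam * (b * (k * (-(Z * Real.log Z) / (Real.log Lam - 1))) + tau0 kap b * N) := hrec
  have hlogZ : -(Z * Real.log Z) ≤ Z * Real.log (1 / eta) := by
    have h1 : Real.log eta ≤ Real.log Z := Real.log_le_log heta hg1
    have h2 : Real.log (1 / eta) = -Real.log eta := by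
      rw [one_div, Real.log_inv]
    rw [h2]
    have := mul_le_mul_of_nonneg_left h1 hZ0.le
    linarith
  have hTPle : c.TP Lam k h' x x' ≤ Z * (cc + 2 * Lam * (b * (k * (Real.log (1 / eta) /
      (Real.log Lam - 1))) + tau0 kap b * N / eta)) := by
    have h1 : -(Z * Real.log Z) / (Real.log Lam - 1) ≤
        Z * (Real.log (1 / eta) / (Real.log Lam - 1)) := by
      rw [← mul_div_assoc]
      exact div_le_div_of_nonneg_right hlogZ hlog.le
    have h2 : b * (k * (-(Z * Real.log Z) / (Real.log Lam - 1))) ≤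
        b * (k * (Z * (Real.log (1 / eta) / (Real.log Lam - 1)))) :=
      mul_le_mul_of_nonneg_left (mul_le_mul_of_nonneg_left h1 (Nat.cast_nonneg k)) hb
    have h3 : tau0 kap b * N ≤ Z * (tau0 kap b * N / eta) := by
      rw [← mul_div_assoc, le_div_iff₀ heta, mul_comm Z]
      exact mul_le_mul_of_nonneg_left hg1 (mul_nonneg ht0 hN0)
    have h4 : 2 * Lam * (b * (k * (-(Z * Real.log Z) / (Real.log Lam - 1))) + tau0 kap b * N) ≤
        2 * Lam * (b * (k * (Z * (Real.log (1 / eta) / (Real.log Lam - 1)))) +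
          Z * (tau0 kap b * N / eta)) :=
      mul_le_mul_of_nonneg_left (by linarith) (by linarith)
    calc c.TP Lam k h' x x' ≤ cc * Z + 2 * Lam * (b * (k * (Z * (Real.log (1 / eta) /
          (Real.log Lam - 1)))) + Z * (tau0 kap b * N / eta)) := by linarith
      _ = _ := by ring
  have hTP0 : 0 ≤ c.TP Lam k h' x x' := by
    rw [hTP]
    exact add_nonneg hT10 hT20
  have hfac : 0 ≤ 1 / cc' + 4 / zeta' ^ 2 := by positivity
  have hBC : 1 / cc' * T1 + 4 / zeta' ^ 2 * T2 ≤ Z / 8 := by
    have h1 : 1 / cc' * T1 + 4 / zeta' ^ 2 * T2 ≤ (1 / cc' + 4 / zeta' ^ 2) * (T1 + T2) := by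
      have h2 : 0 ≤ 1 / cc' * T2 := mul_nonneg (by positivity) hT20
      have h3 : 0 ≤ 4 / zeta' ^ 2 * T1 := mul_nonneg (by positivity) hT10
      linarith
    have h4 : (1 / cc' + 4 / zeta' ^ 2) * (T1 + T2) ≤ (1 / cc' + 4 / zeta' ^ 2) *
        (Z * (cc + 2 * Lam * (b * (k * (Real.log (1 / eta) /
      (Real.log Lam - 1))) + tau0 kap b * N / eta))) := by
      rw [← hTP]
      exact mul_le_mul_of_nonneg_left hTPle hfac
    have h5 : (1 / cc' + 4 / zeta' ^ 2) *
        (Z * (cc + 2 * Lam * (b * (k * (Real.log (1 / eta) /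
      (Real.log Lam - 1))) + tau0 kap b * N / eta))) = Z * ((1 / cc' + 4 / zeta' ^ 2) *
        (cc + 2 * Lam * (b * (k * (Real.log (1 / eta) /
      (Real.log Lam - 1))) + tau0 kap b * N / eta))) := by ring
    have h6 := mul_le_mul_of_nonneg_left hnum hZ0.le
    linarith
  have hkeq : k * eta' ≤ Z / 16 := by linarith
  calc _ ≤ _ := hsum
    _ ≤ Z / 16 + Z / 8 := by linarith
    _ ≤ 1 / 4 * Z := by linarith

end Pool.Agent.H21.SPW
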